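import Pool.Agent.X280.HP.WeiLaw

/-!
# Nagao's conjecture: the normal law of the averages for all pencils of Weierstrass cubics

For polynomials `A, B` with integral coefficients, a prime `p` and `t ∈ {0, …, p - 1}` the Frobenius trace
`a_p(ℰ_t)` of the reduction modulo `p` of the fibre at `t` of `ℰ : y² = x³ + A(T) x + B(T)` is
`p + 1 - #ℰ_t(𝔽_p)`, i.e. `p` minus the number of the affine points, and `A_p(ℰ)` is its mean over the `p`
residues `t`.  Nagao's conjecture states that `X⁻¹ ∑_{p ≤ X} log p · A_p(ℰ)` tends to minus the rank of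
`ℰ(ℚ(T))`.  It is known if the elliptic surface is rational, in particular if `deg A ≤ 4` and `deg B ≤ 6`.

We determine the exact size and the distribution of this average in the family of ALL `ℰ` with
`deg A ≤ a`, `deg B ≤ b`, for all `a, b ≥ 3`: it has the normal law with mean value `0` and variance
`∑_{p ≤ X} (log p)² / X²`, asymptotically `log X / X`, if the coefficients run over all the integers of
absolute value at most `H` and `X` and `log H / log X` tend to infinity.  The same holds for the primes of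
arbitrary finite sets and arbitrary weights.

The coefficients of `A` are `c (inl 0), …, c (inl a)`, those of `B` are `c (inr 0), …, c (inr b)`;
`polyOf v` is the polynomial with the coefficients `v 0, …, v n`; `affinePts p α β` is the number of the
solutions of `y² = x³ + α x + β` in `𝔽_p`, `frobTrace A B p t = p - affinePts p (A t) (B t)`,
`fibralAverage A B p` is `A_p(ℰ)`, and `nagaoMean A B X = X⁻¹ ∑_{p ≤ X} log p · A_p(ℰ)`.
-/

set_option autoImplicit false

namespace Pool.Agent.Results.MP_60fb2a_nt.AllWeierstrassPencils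

open Pool.Agent.X280.HG Pool.Agent.X280.HP ProbabilityTheory

/-- Let `a, b ≥ 3`, `u` real and `ε > 0`.

(1) For `δ > 0` there is a `K` such that for all finite sets `P` of at least `K` primes `p ≤ y`, all weights
`w(p) ∈ [-1, 1]` with `∑ w(p)² ≥ δ |P|` and all `H ≥ y^K` the proportion, among the pairs `(A, B)` of
polynomials of degree at most `a`, `b` with integral coefficients of absolute value at most `H`, of those with
`∑_{p ∈ P} w(p) A_p(ℰ) ≤ u √(∑ w(p)²)` differs by at most `ε` from the probability that a standard normal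
variable is at most `u`.

(2) There is a `K` such that for all `X ≥ K` and `H ≥ X^K` the proportion of those with
`X⁻¹ ∑_{p ≤ X} log p · A_p(ℰ) ≤ u √(∑_{p ≤ X} (log p)²) / X` differs by at most `ε` from this
probability. -/
theorem result (a b : ℕ) (ha : 3 ≤ a) (hb : 3 ≤ b) (u ε : ℝ) (hε : 0 < ε) :
    (∀ δ : ℝ, 0 < δ → ∃ K : ℕ, ∀ (P : Finset ℕ) (w : ℕ → ℝ) (y H : ℕ),
      (∀ p ∈ P, p.Prime ∧ p ≤ y) → (∀ p ∈ P, |w p| ≤ 1) → δ * P.card ≤ ∑ p ∈ P, w p ^ 2 →
      K ≤ P.card → y ^ K ≤ H →
      |({c : Fin (a + 1) ⊕ Fin (b + 1) → ℤ | (∀ q, |c q| ≤ H) ∧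
        ∑ p ∈ P, w p * fibralAverage (polyOf fun i => c (Sum.inl i))
          (polyOf fun j => c (Sum.inr j)) p ≤ u * √(∑ p ∈ P, w p ^ 2)}.ncard : ℝ) /
        (2 * H + 1 : ℝ) ^ (a + b + 2) - (gaussianReal 0 1).real (Set.Iic u)| ≤ ε) ∧
    ∃ K : ℕ, ∀ X H : ℕ, K ≤ X → X ^ K ≤ H →
      |({c : Fin (a + 1) ⊕ Fin (b + 1) → ℤ | (∀ q, |c q| ≤ H) ∧
        nagaoMean (polyOf fun i => c (Sum.inl i)) (polyOf fun j => c (Sum.inr j)) X ≤
        u * (√(∑ p ∈ primesUpTo X, Real.log p ^ 2) / X)}.ncard : ℝ) /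
        (2 * H + 1 : ℝ) ^ (a + b + 2) - (gaussianReal 0 1).real (Set.Iic u)| ≤ ε :=
  ⟨fun δ hδ => law_wei a b ha hb δ hδ u ε hε, law_nagaoMean a b ha hb u ε hε⟩

end Pool.Agent.Results.MP_60fb2a_nt.AllWeierstrassPencils
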