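import Pool.Agent.X280.HP.Sec5

/-!
# Nagao's conjecture: pencils of elliptic curves with one, two and six marked sections

For a Weierstrass equation `ℰ` with coefficients in `ℤ[T]` let `A_p(ℰ)` be the mean value of the Frobenius
traces `p + 1 - #ℰ_t(𝔽_p)` over the `p` residues `t`.  Nagao's conjecture states that
`X⁻¹ ∑_{p ≤ X} log p · A_p(ℰ)` tends to minus the rank of `ℰ(ℚ(T))`.

We consider the following families of Weierstrass equations, with parameters which are arbitrary polynomials in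
`T` of degree at most `d` (`d ≥ 1` is arbitrary, so the surfaces are not rational in general):

* `V1 c : y² + c₀ x y + c₂ y = x³ + c₁ x² + c₃ x` with the section `(0, 0)` (`r = 1`);
* `V2 c : y² + (c₀ x + c₁) y = x (x - 1) (x + c₂)` with the sections `(0, 0)`, `(1, 0)` (`r = 2`);
* `V6 c : y² + 2 w x y + (16 (v² - 820) - 2 w G) y = x (x - G - 192) (x - G + 192)`, `u = c₀`, `v = c₁`,
  `w = u² - 30`, `G = 8 u v + 1092 - w²`, the models of
  `Y² = X (u X + v)² + (X - 1) (X - 4) (X - 9) (X - 16)`, with the six sections `marks6 c` (`r = 6`).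

In the families with `r` marked sections the averages behave as the conjecture predicts for the rank `r`: for all
but the part `K (log X)² / (X l²)` of the pencils with coefficients of absolute value at most `H ≥ X⁴` the average
`X⁻¹ ∑_{5 ≤ p ≤ X} log p · A_p(ℰ)` differs from `-r X⁻¹ ∑_{5 ≤ p ≤ X} log p` by less than `l`.  (The last sum
divided by `X` tends to `1` by the prime number theorem.)

`fibre W c t` is the fibre at `t` of the pencil whose `i`-th parameter is the polynomial with the coefficients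
`c (i, 0), …, c (i, d)`, `np E p` is the number of the points of `E` modulo `p` with the point at infinity,
`pencilAverage W c p` is `A_p(ℰ)`.
-/

set_option autoImplicit false

namespace Pool.Agent.Results.MP_60fb2a_nt.PencilsWithSections

open Finset Pool.Agent.X280.BP Pool.Agent.X280.HG Pool.Agent.X280.HP

/-- For all but the part `K (log X)² / (X l²)` of the pencils of degree `d` in the family `W`, with coefficients of
absolute value at most `H`, where `H ≥ X⁴`, `|X⁻¹ ∑_{5 ≤ p ≤ X} log p · (A_p + r)| < l`. -/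
def NagaoOnAverage {n : ℕ} (W : (Fin n → ℤ) → WeierstrassCurve ℤ) (r : ℝ) (d : ℕ) : Prop :=
  ∃ K : ℝ, ∀ X H : ℕ, 1 ≤ X → X ^ 4 ≤ H → ∀ l : ℝ, 0 < l →
    ({c : Fin n × Fin (d + 1) → ℤ | (∀ q, |c q| ≤ H) ∧
      l ≤ |(∑ p ∈ (primesUpTo X).filter (5 ≤ ·), Real.log p * (pencilAverage W c p + r)) / X|}.ncard
        : ℝ) / (2 * H + 1 : ℝ) ^ (n * (d + 1)) ≤ K * (Real.log X ^ 2 / X) / l ^ 2

/-- **Nagao's conjecture on average** for the pencils with one, two and six marked sections. -/
theorem result (d : ℕ) (hd : 1 ≤ d) :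
    ((∀ c : Fin 4 → Polynomial ℤ, OnE (V1 c) (0, 0)) ∧ NagaoOnAverage (fun c : Fin 4 → ℤ => V1 c) 1 d) ∧
    ((∀ c : Fin 3 → Polynomial ℤ, OnE (V2 c) (0, 0) ∧ OnE (V2 c) (1, 0)) ∧
      NagaoOnAverage (fun c : Fin 3 → ℤ => V2 c) 2 d) ∧
    ((∀ (c : Fin 2 → Polynomial ℤ) (i : Fin 6), OnE (V6 c) (marks6 c i)) ∧
      NagaoOnAverage (fun c : Fin 2 → ℤ => V6 c) 6 d) := by
  refine ⟨⟨fun c => on1 c, ?_⟩, ⟨fun c => on2 c, ?_⟩, ⟨fun c i => on6 c i, ?_⟩⟩
  · obtain ⟨K, hK⟩ := nagao_pencils redV1 dat1 hd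
    refine ⟨K, fun X H hX hXH l hl => ?_⟩
    have h := hK X H hX hXH l hl
    rw [Fintype.card_prod, Fintype.card_fin, Fintype.card_fin] at h
    exact h
  · obtain ⟨K, hK⟩ := nagao_pencils redV2 dat2 hd
    refine ⟨K, fun X H hX hXH l hl => ?_⟩
    have h := hK X H hX hXH l hl
    rw [Fintype.card_prod, Fintype.card_fin, Fintype.card_fin] at h
    exact h
  · obtain ⟨K, hK⟩ := nagao_pencils redV6 dat6 hd
    refine ⟨K, fun X H hX hXH l hl => ?_⟩
    have h := hK X H hX hXH l hl
    rw [Fintype.card_prod, Fintype.card_fin, Fintype.card_fin] at h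
    exact h

end Pool.Agent.Results.MP_60fb2a_nt.PencilsWithSections
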